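import Pool.Agent.Lib.MP_524519_ag.DU5.TE1.Lf

/-! # TE1: base change `x = s ^ n` -/

set_option autoImplicit false

namespace Pool.Agent.DU5.TE1

open Polynomial Pool.Agent.DU5.PC

variable {K : Type} [Field K] (n : ℕ) (hn : n ≠ 0)

/-- The `i`-th component of a power series in `s` over the power series in `s ^ n`. -/
noncomputable def dec (i : ℕ) : PowerSeries K →ₗ[K] PowerSeries K where
  toFun b := PowerSeries.mk fun m => PowerSeries.coeff (n * m + i) b
  map_add' a b := by ext m; simp
  map_smul' c a := by ext m; simp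

theorem coeff_dec (i m : ℕ) (b : PowerSeries K) :
    PowerSeries.coeff m (dec n i b) = PowerSeries.coeff (n * m + i) b := by
  simp [dec]

theorem coeff_ex (a : PowerSeries K) (m : ℕ) :
    PowerSeries.coeff m (ex K n hn a) = if n ∣ m then PowerSeries.coeff (m / n) a else 0 :=
  PowerSeries.coeff_expand n hn a

theorem coeff_sum (a : Fin n → PowerSeries K) (m : ℕ) (i : Fin n) (q : ℕ) (hm : m = n * q + i) :
    PowerSeries.coeff m (∑ j : Fin n, PowerSeries.X ^ (j : ℕ) * ex K n hn (a j)) =
      PowerSeries.coeff q (a i) := by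
  have hn0 : 0 < n := Nat.pos_of_ne_zero hn
  rw [map_sum, Finset.sum_eq_single i]
  · rw [PowerSeries.coeff_X_pow_mul', if_pos (by omega), coeff_ex]
    have h1 : m - (i : ℕ) = n * q := by omega
    rw [h1, if_pos (Dvd.intro _ rfl), Nat.mul_div_cancel_left _ hn0]
  · intro j _ hji
    rw [PowerSeries.coeff_X_pow_mul', coeff_ex]
    split_ifs with h1 h2
    · exfalso
      apply hji
      obtain ⟨c, hc⟩ := h2
      have h3 : n * q + i = n * c + j := by omega
      have h4 : (n * q + i) % n = (n * c + j) % n := by rw [h3]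
      rw [Nat.mul_add_mod, Nat.mul_add_mod, Nat.mod_eq_of_lt i.2, Nat.mod_eq_of_lt j.2] at h4
      exact (Fin.ext h4).symm
    · rfl
    · rfl
  · intro h; exact absurd (Finset.mem_univ _) h

theorem dec_sum (a : Fin n → PowerSeries K) (i : Fin n) :
    dec n i (∑ j : Fin n, PowerSeries.X ^ (j : ℕ) * ex K n hn (a j)) = a i := by
  ext m
  rw [coeff_dec, coeff_sum n hn a _ i m rfl]

theorem sum_dec (b : PowerSeries K) :
    ∑ j : Fin n, PowerSeries.X ^ (j : ℕ) * ex K n hn (dec n j b) = b := by
  ext m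
  have hn0 : 0 < n := Nat.pos_of_ne_zero hn
  rw [coeff_sum n hn _ m ⟨m % n, Nat.mod_lt _ hn0⟩ (m / n) (Nat.div_add_mod m n).symm, coeff_dec]
  have h1 : n * (m / n) + m % n = m := Nat.div_add_mod m n
  change PowerSeries.coeff (n * (m / n) + m % n) b = _
  rw [h1]

theorem dec_mul (i : Fin n) (b a : PowerSeries K) :
    dec n i (b * ex K n hn a) = dec n i b * a := by
  have h1 : b * ex K n hn a =
      ∑ j : Fin n, PowerSeries.X ^ (j : ℕ) * ex K n hn (dec n j b * a) := by
    conv_lhs => rw [← sum_dec n hn b]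
    rw [Finset.sum_mul]
    refine Finset.sum_congr rfl fun j _ => ?_
    rw [map_mul]; ring
  rw [h1, dec_sum]

/-- The `i`-th component of a polynomial. -/
noncomputable def Dec (i : ℕ) : (PowerSeries K)[X] →ₗ[K] (PowerSeries K)[X] :=
  Polynomial.lsum fun k => ((Polynomial.monomial k).restrictScalars K).comp (dec n i)

theorem coeff_Dec (i k : ℕ) (f : (PowerSeries K)[X]) :
    (Dec n i f).coeff k = dec n i (f.coeff k) := by
  classical
  have h1 : Dec n i f = f.sum fun k b => Polynomial.monomial k (dec n i b) := by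
    unfold Dec
    rw [Polynomial.lsum_apply]
    rfl
  rw [h1, Polynomial.sum_def, Polynomial.finsetSum_coeff]
  simp only [Polynomial.coeff_monomial]
  rw [Finset.sum_ite_eq' f.support k]
  split_ifs with h
  · rfl
  · rw [Polynomial.notMem_support_iff.1 h, map_zero]

theorem sum_Dec (f : (PowerSeries K)[X]) :
    ∑ j : Fin n, C (PowerSeries.X ^ (j : ℕ)) * (Dec n j f).map (ex K n hn) = f := by
  ext1 k
  rw [Polynomial.finsetSum_coeff]
  simp only [Polynomial.coeff_C_mul, Polynomial.coeff_map, coeff_Dec]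
  exact sum_dec n hn _

theorem Dec_sum (a : Fin n → (PowerSeries K)[X]) (i : Fin n) :
    Dec n i (∑ j : Fin n, C (PowerSeries.X ^ (j : ℕ)) * (a j).map (ex K n hn)) = a i := by
  ext1 k
  rw [coeff_Dec, Polynomial.finsetSum_coeff]
  simp only [Polynomial.coeff_C_mul, Polynomial.coeff_map]
  exact dec_sum n hn _ i

theorem Dec_mul (i : Fin n) (b a : (PowerSeries K)[X]) :
    Dec n i (b * a.map (ex K n hn)) = Dec n i b * a := by
  have h1 : b * a.map (ex K n hn) =
      ∑ j : Fin n, C (PowerSeries.X ^ (j : ℕ)) * (Dec n j b * a).map (ex K n hn) := by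
    conv_lhs => rw [← sum_Dec n hn b]
    rw [Finset.sum_mul]
    refine Finset.sum_congr rfl fun j _ => ?_
    rw [Polynomial.map_mul]; ring
  rw [h1, Dec_sum]

/-- The length after the base change `x = s ^ n`. -/
theorem length_ex (P g : (PowerSeries K)[X]) :
    Module.length K ((PowerSeries K)[X] ⧸
      (Ideal.span {P.map (ex K n hn), g.map (ex K n hn)} : Ideal (PowerSeries K)[X])) =
    n * Module.length K ((PowerSeries K)[X] ⧸ (Ideal.span {P, g} : Ideal (PowerSeries K)[X])) := by
  set I : Ideal (PowerSeries K)[X] := Ideal.span {P, g} with hI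
  let Φ : (PowerSeries K)[X] →ₗ[K] (Fin n → ((PowerSeries K)[X] ⧸ I)) :=
    LinearMap.pi fun i => (Ideal.Quotient.mkₐ K I).toLinearMap.comp (Dec n (i : ℕ))
  have hΦa : ∀ f i, Φ f i = Ideal.Quotient.mk I (Dec n (i : ℕ) f) := fun f i => rfl
  have hΦs : Function.Surjective Φ := by
    intro v
    choose a ha using fun i => Ideal.Quotient.mk_surjective (v i)
    refine ⟨∑ j : Fin n, C (PowerSeries.X ^ (j : ℕ)) * (a j).map (ex K n hn), ?_⟩
    funext i
    rw [hΦa, Dec_sum, ha]
  have hker : LinearMap.ker Φ = (Ideal.span {P.map (ex K n hn), g.map (ex K n hn)} :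
      Ideal (PowerSeries K)[X]).restrictScalars K := by
    ext f
    rw [LinearMap.mem_ker, Submodule.restrictScalars_mem]
    constructor
    · intro hf
      rw [← sum_Dec n hn f]
      refine Ideal.sum_mem _ fun j _ => Ideal.mul_mem_left _ _ ?_
      have h1 := congrFun hf j
      rw [hΦa, Pi.zero_apply, Ideal.Quotient.eq_zero_iff_mem, hI, Ideal.mem_span_pair] at h1
      obtain ⟨a, b, hab⟩ := h1
      rw [Ideal.mem_span_pair]
      exact ⟨a.map (ex K n hn), b.map (ex K n hn), by
        rw [← Polynomial.map_mul, ← Polynomial.map_mul, ← Polynomial.map_add, hab]⟩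
    · intro hf
      rw [Ideal.mem_span_pair] at hf
      obtain ⟨a, b, rfl⟩ := hf
      funext i
      rw [hΦa, Pi.zero_apply, Ideal.Quotient.eq_zero_iff_mem, map_add, Dec_mul, Dec_mul, hI,
        Ideal.mem_span_pair]
      exact ⟨_, _, rfl⟩
  rw [← (Submodule.Quotient.restrictScalarsEquiv K _).length_eq, ← hker,
    (LinearMap.quotKerEquivOfSurjective Φ hΦs).length_eq, Module.length_pi]
  simp

/-- **The length formula.** -/
theorem length_formula (P : (PowerSeries K)[X]) (d : ℕ) (η : Fin d → PowerSeries K)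
    (hP : P.map (ex K n hn) = ∏ i, (X - C (η i))) (g : (PowerSeries K)[X])
    (hg : ∀ i, pev n hn (η i) g ≠ 0) :
    n * Module.length K ((PowerSeries K)[X] ⧸ (Ideal.span {P, g} : Ideal (PowerSeries K)[X])) =
      ∑ i, (pev n hn (η i) g).order := by
  rw [← length_ex n hn P g, hP]
  exact length_split d η _ hg

end Pool.Agent.DU5.TE1
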