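import Pool.Agent.Lib.MP_524519_ag.DU5.PC.WEI
import Pool.Agent.Lib.MP_524519_ag.DU5.PC.EVI

/-! # TE1: uniqueness in the Weierstrass division -/

set_option autoImplicit false

namespace Pool.Agent.DU5.TE1

open Polynomial Pool.Agent.DU5.PC

variable {K : Type} [Field K]

/-- If a distinguished polynomial divides a polynomial in `K⟦x, y⟧` then it divides it in
`K⟦x⟧[y]`. -/
theorem unq (P : (PowerSeries K)[X]) (d : ℕ) (hP : P.Monic) (hd : P.natDegree = d)
    (hX : ∀ j ≤ d, PowerSeries.X ^ (d - j) ∣ P.coeff j) (g : (PowerSeries K)[X]) (h : R2 K)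
    (hg : incl K g = h * incl K P) : P ∣ g := by
  have hc : IsAdicComplete (IsLocalRing.maximalIdeal (PowerSeries K)) (PowerSeries K) :=
    WFC.complete
  have hord : ((P : PowerSeries (PowerSeries K)).map
      (IsLocalRing.residue (PowerSeries K))).order = (d : ℕ∞) := by
    rw [PowerSeries.order_eq_nat]
    constructor
    · rw [PowerSeries.coeff_map, Polynomial.coeff_coe, ← hd, hP.coeff_natDegree, map_one]
      exact one_ne_zero
    · intro i hi
      rw [PowerSeries.coeff_map, Polynomial.coeff_coe, WFC.residue_eq_zero,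
        ← PowerSeries.X_dvd_iff]
      exact (dvd_pow_self _ (by omega)).trans (hX i hi.le)
  have hne : (P : PowerSeries (PowerSeries K)).map (IsLocalRing.residue (PowerSeries K)) ≠ 0 := by
    intro hz
    rw [hz, PowerSeries.order_zero] at hord
    exact ENat.top_ne_natCast d hord
  have h1 : (g : PowerSeries (PowerSeries K)) = WEI.phi K h * (P : PowerSeries (PowerSeries K)) := by
    rw [← WEI.phi_incl, ← WEI.phi_incl, hg, map_mul]
  have hdiv : g %ₘ P + P * (g /ₘ P) = g := modByMonic_add_div g P
  have hdeg : (g %ₘ P).degree < (((P : PowerSeries (PowerSeries K)).map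
      (IsLocalRing.residue (PowerSeries K))).order.toNat) := by
    rw [hord, ENat.toNat_natCast, ← hd, ← degree_eq_natDegree hP.ne_zero]
    exact degree_modByMonic_lt g hP
  have hw : PowerSeries.IsWeierstrassDivision (0 : PowerSeries (PowerSeries K))
      (P : PowerSeries (PowerSeries K))
      (((g /ₘ P : (PowerSeries K)[X]) : PowerSeries (PowerSeries K)) - WEI.phi K h)
      (g %ₘ P) := by
    refine ⟨hdeg, ?_⟩
    have h2 : (g : PowerSeries (PowerSeries K)) =
        ((g %ₘ P : (PowerSeries K)[X]) : PowerSeries (PowerSeries K)) +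
          (P : PowerSeries (PowerSeries K)) *
            ((g /ₘ P : (PowerSeries K)[X]) : PowerSeries (PowerSeries K)) := by
      rw [← Polynomial.coe_mul, ← Polynomial.coe_add, hdiv]
    linear_combination h2 - h1
  have h3 := (hw.eq_zero hne).2
  exact (Polynomial.modByMonic_eq_zero_iff_dvd hP).1 h3

end Pool.Agent.DU5.TE1
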