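import Pool.Agent.Lib.MP_524519_ag.DU5.Top
import Pool.Agent.Lib.MP_524519_ag.DU5.PC.NP
import Pool.Agent.Lib.MP_524519_ag.DU5.PC.ORD
import Pool.Agent.Lib.MP_524519_ag.DU5.PC.H38.PCM
import Pool.Agent.Lib.MP_524519_ag.DU5.PC.H31.LXP
import Pool.Agent.Lib.MP_524519_ag.DU5.TR.H57.Chn
import Pool.Agent.Lib.MP_524519_ag.DU5.TE1.Bc
import Pool.Agent.Lib.MP_524519_ag.DU5.TE1.Unq

/-! # TE1: Teissier's lemma for the plane curve -/

set_option autoImplicit false

namespace Pool.Agent.DU5.TE1

open Polynomial Pool.Agent.DU5.PC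

section

variable {K : Type} [Field K]

/-- The ideal `(F, G)` of `K⟦x, y⟧` and the ideal `(P, r)` of `K⟦x⟧[y]`, where `P` is the
Weierstrass polynomial of `F` and `r` the remainder of `G`. -/
theorem comap_pair (P : (PowerSeries K)[X]) (d : ℕ) (hP : P.Monic) (hd : P.natDegree = d)
    (hX : ∀ j ≤ d, PowerSeries.X ^ (d - j) ∣ P.coeff j) (F G u q : R2 K)
    (r : (PowerSeries K)[X]) (hu : IsUnit u) (hPF : incl K P = u * F)
    (hG : G = q * F + incl K r)
    (hdiv : ∀ g : R2 K, ∃ (q : R2 K) (r : (PowerSeries K)[X]), g = q * F + incl K r) :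
    (Ideal.span {G, F} : Ideal (R2 K)).comap (incl K) = Ideal.span {P, r} := by
  obtain ⟨v, hv⟩ := hu.exists_left_inv
  have hF : F = v * incl K P := by rw [hPF, ← mul_assoc, hv, one_mul]
  ext g
  rw [Ideal.mem_comap, Ideal.mem_span_pair, Ideal.mem_span_pair]
  constructor
  · rintro ⟨a, b, hab⟩
    obtain ⟨q', a', ha'⟩ := hdiv a
    have h1 : incl K (g - a' * r) = ((a * q + q' * incl K r + b) * v) * incl K P := by
      rw [map_sub, map_mul, ← hab]
      have h2 : a * G = a * q * F + q' * incl K r * F + incl K a' * incl K r := by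
        rw [hG]
        have h3 : a * incl K r = (q' * F + incl K a') * incl K r := by rw [← ha']
        linear_combination h3
      rw [h2, mul_assoc _ v, ← hF]
      ring
    obtain ⟨c, hc⟩ := unq P d hP hd hX _ _ h1
    exact ⟨c, a', by rw [mul_comm c, ← hc]; ring⟩
  · rintro ⟨a, b, rfl⟩
    refine ⟨incl K b, incl K a * u - incl K b * q, ?_⟩
    rw [map_add, map_mul, map_mul, hPF, hG]
    ring

theorem len_pair (P : (PowerSeries K)[X]) (d : ℕ) (hP : P.Monic) (hd : P.natDegree = d)
    (hX : ∀ j ≤ d, PowerSeries.X ^ (d - j) ∣ P.coeff j) (F G u q : R2 K)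
    (r : (PowerSeries K)[X]) (hu : IsUnit u) (hPF : incl K P = u * F)
    (hG : G = q * F + incl K r)
    (hdiv : ∀ g : R2 K, ∃ (q : R2 K) (r : (PowerSeries K)[X]), g = q * F + incl K r) :
    len K (Ideal.span {G, F} : Ideal (R2 K)) =
      Module.length K ((PowerSeries K)[X] ⧸ (Ideal.span {P, r} : Ideal (PowerSeries K)[X])) := by
  unfold len
  rw [← comap_pair P d hP hd hX F G u q r hu hPF hG hdiv, PCM.length_comap]
  intro g
  obtain ⟨q', r', h⟩ := hdiv g
  refine ⟨r', ?_⟩
  rw [Ideal.mem_span_pair]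
  exact ⟨0, q', by rw [h]; ring⟩

theorem coeff_X_mul_derivative (a : PowerSeries K) (j : ℕ) :
    PowerSeries.coeff j (PowerSeries.X * PowerSeries.derivative K a) =
      (j : K) * PowerSeries.coeff j a := by
  cases j with
  | zero => simp
  | succ j =>
    rw [PowerSeries.coeff_succ_X_mul, PowerSeries.coeff_derivative]
    push_cast; ring

/-- If `0 < ord a < p` then `ord (s a') = ord a`. -/
theorem order_X_derivative (p : ℕ) [Fact p.Prime] [CharP K p] (a : PowerSeries K)
    (h0 : PowerSeries.constantCoeff a = 0) (hp : a.order < p) :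
    (PowerSeries.X * PowerSeries.derivative K a).order = a.order := by
  have ha : a ≠ 0 := by
    rintro rfl
    rw [PowerSeries.order_zero] at hp
    exact absurd hp (not_lt.2 le_top)
  set m := a.order.toNat with hm
  have hma : a.order = m := (PowerSeries.coe_toNat_order ha).symm
  rw [hma]
  rw [hma] at hp
  have hp' : m < p := by exact_mod_cast hp
  have hm0 : m ≠ 0 := by
    intro h
    have h1 := PowerSeries.coeff_order ha
    rw [← hm, h, PowerSeries.coeff_zero_eq_constantCoeff_apply] at h1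
    exact h1 h0
  rw [PowerSeries.order_eq_nat]
  constructor
  · rw [coeff_X_mul_derivative]
    refine mul_ne_zero ?_ (by rw [hm]; exact PowerSeries.coeff_order ha)
    rw [Ne, CharP.cast_eq_zero_iff K p]
    intro h
    exact absurd (Nat.le_of_dvd (Nat.pos_of_ne_zero hm0) h) (not_le.2 hp')
  · intro i hi
    rw [coeff_X_mul_derivative, PowerSeries.coeff_of_lt_order_toNat _ hi, mul_zero]

end

end Pool.Agent.DU5.TE1

namespace Pool.Agent.DU5

open Polynomial TE1 PC in
theorem te1 : TE1Statement := by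
  intro p hp F _ _ d E hgood hd φ hφ hE hnE hdp
  set n := PC.rootExp (d - 1) with hn
  have hn0 : n ≠ 0 := PCM.rootExp_ne _
  have hgood' : PC.Good F (d - 1) := PC.NP.good_mono hgood (by omega)
  have hncast : ((n : ℕ) : F) ≠ 0 := PCM.rootExp_cast hgood'
  set φy : PC.R2 F := MvPowerSeries.pderiv F 1 φ with hφy
  set φx : PC.R2 F := MvPowerSeries.pderiv F 0 φ with hφx
  have hReg : PC.Reg (d - 1) φy := by
    constructor
    · intro e he
      rw [hφy, MvPowerSeries.coeff_pderiv, hφ.low, zero_mul]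
      simp only [Finsupp.add_apply]
      have h1 : (Finsupp.single (1 : Fin 2) 1 : Fin 2 →₀ ℕ) 0 = 0 := by simp
      have h2 : (Finsupp.single (1 : Fin 2) 1 : Fin 2 →₀ ℕ) 1 = 1 := by simp
      rw [h1, h2]
      omega
    · rw [hφy, MvPowerSeries.coeff_pderiv, ← Finsupp.single_add]
      have h1 : d - 1 + 1 = d := by omega
      rw [h1, Finsupp.single_eq_same]
      refine mul_ne_zero hφ.top ?_
      have h2 : (((d - 1 : ℕ) : F) + 1) = ((d : ℕ) : F) := by
        rw [← Nat.cast_succ, Nat.succ_eq_add_one, h1]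
      rw [h2, Ne, CharP.cast_eq_zero_iff F p]
      intro h
      exact absurd (Nat.le_of_dvd (by omega) h) (not_le.2 hdp)
  obtain ⟨P, u, hu, hPm, hPd, hPu, hPX, hdiv⟩ := PC.wei F (d - 1) φy (by omega) hReg
  obtain ⟨η, hη⟩ := PC.np PC.wfc F (d - 1) hgood' P hPm hPd n hn0 dvd_rfl
  have hpevP : ∀ i, PC.pev n hn0 (η i) P = 0 := by
    intro i
    unfold PC.pev
    rw [hη, eval_prod]
    exact Finset.prod_eq_zero (Finset.mem_univ i) (by simp)
  have hη0 : ∀ i, PowerSeries.constantCoeff (η i) = 0 := by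
    intro i
    have h1 := PC.ord F (d - 1) P hPm hPd hPX n hn0 (η i) (hpevP i)
    rw [← PowerSeries.X_dvd_iff]
    exact (dvd_pow_self _ hn0).trans h1
  have hs : ∀ i, MvPowerSeries.HasSubst
      (![(PowerSeries.X : PowerSeries F) ^ n, η i] : Fin 2 → PowerSeries F) := fun i =>
    PC.EVI.hasSubst hn0 (hη0 i)
  have hevi := PC.evi F
  have hincl : ∀ i g, PC.ev n (η i) (PC.incl F g) = PC.pev n hn0 (η i) g := fun i g =>
    hevi.1 n hn0 (η i) (hη0 i) g
  have hmul : ∀ i g h, PC.ev n (η i) (g * h) = PC.ev n (η i) g * PC.ev n (η i) h := fun i g h =>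
    (hevi.2.2 n hn0 (η i) (hη0 i) g h).1
  have hadd : ∀ i g h, PC.ev n (η i) (g + h) = PC.ev n (η i) g + PC.ev n (η i) h := fun i g h =>
    (hevi.2.2 n hn0 (η i) (hη0 i) g h).2
  have hone : ∀ i, PC.ev n (η i) (1 : PC.R2 F) = 1 := by
    intro i
    unfold PC.ev
    rw [← MvPowerSeries.coe_substAlgHom (hs i)]
    exact map_one _
  have hφy0 : ∀ i, PC.ev n (η i) φy = 0 := by
    intro i
    obtain ⟨v, hv⟩ := hu.exists_left_inv
    have h1 : φy = v * PC.incl F P := by rw [hPu, ← mul_assoc, hv, one_mul]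
    rw [h1, hmul, hincl, hpevP, mul_zero]
  -- the values of `φ`
  obtain ⟨q, r, hqr⟩ := hdiv φ
  obtain ⟨q', r', hqr'⟩ := hdiv φx
  have hr : ∀ i, PC.pev n hn0 (η i) r = PC.ev n (η i) φ := by
    intro i
    rw [hqr, hadd, hmul, hφy0, mul_zero, zero_add, hincl]
  have hr' : ∀ i, PC.pev n hn0 (η i) r' = PC.ev n (η i) φx := by
    intro i
    rw [hqr', hadd, hmul, hφy0, mul_zero, zero_add, hincl]
  have hl : len F (Ideal.span {φ, φy} : Ideal (PC.R2 F)) =
      Module.length F ((PowerSeries F)[X] ⧸ (Ideal.span {P, r} : Ideal (PowerSeries F)[X])) :=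
    len_pair P (d - 1) hPm hPd hPX φy φ u q r hu hPu hqr hdiv
  have hl' : len F (Ideal.span {φx, φy} : Ideal (PC.R2 F)) =
      Module.length F ((PowerSeries F)[X] ⧸ (Ideal.span {P, r'} : Ideal (PowerSeries F)[X])) :=
    len_pair P (d - 1) hPm hPd hPX φy φx u q' r' hu hPu hqr' hdiv
  rw [hl] at hE
  rw [hl, hl']
  have hfin : Module.length F ((PowerSeries F)[X] ⧸
      (Ideal.span {P, r} : Ideal (PowerSeries F)[X])) ≠ ⊤ :=
    ne_top_of_le_ne_top (ENat.natCast_ne_top E) hE
  have hal : ∀ i, PC.pev n hn0 (η i) r ≠ 0 := by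
    intro i h0
    obtain ⟨N, hN⟩ := PC.LXP.exists_pow_mem _ hfin
    rw [Ideal.mem_span_pair] at hN
    obtain ⟨a, b, hab⟩ := hN
    have h1 := congrArg (PC.pev n hn0 (η i)) hab
    unfold PC.pev at h1 h0
    have h2 := hpevP i
    unfold PC.pev at h2
    rw [Polynomial.map_add, Polynomial.map_mul, Polynomial.map_mul, eval_add, eval_mul, eval_mul,
      h0, h2, mul_zero, mul_zero, add_zero, Polynomial.map_C, eval_C, map_pow] at h1
    have h3 : PC.ex F n hn0 PowerSeries.X = PowerSeries.X ^ n := PowerSeries.expand_X n hn0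
    rw [h3] at h1
    exact pow_ne_zero _ (pow_ne_zero _ PowerSeries.X_ne_zero) h1.symm
  have hform := length_formula n hn0 P (d - 1) η hη r hal
  -- the order of `φ` at the points
  have hsmall : ∀ i, (PC.pev n hn0 (η i) r).order < p := by
    intro i
    have h1 : (PC.pev n hn0 (η i) r).order ≤ ∑ j, (PC.pev n hn0 (η j) r).order :=
      Finset.single_le_sum (f := fun j => (PC.pev n hn0 (η j) r).order)
        (fun _ _ => bot_le) (Finset.mem_univ i)
    have h2 : ((n : ℕ∞)) * Module.length F ((PowerSeries F)[X] ⧸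
        (Ideal.span {P, r} : Ideal (PowerSeries F)[X])) ≤ ((n * E : ℕ) : ℕ∞) := by
      rw [Nat.cast_mul]
      exact mul_le_mul_right hE _
    have h3 : ((n * E : ℕ) : ℕ∞) < p := by exact_mod_cast hnE
    rw [← hform] at h1
    exact lt_of_le_of_lt (h1.trans h2) h3
  have hconst : ∀ i, PowerSeries.constantCoeff (PC.pev n hn0 (η i) r) = 0 := by
    intro i
    rw [hr, ← PowerSeries.coeff_zero_eq_constantCoeff_apply]
    refine TR.H57.coeff_ev_zero (![(PowerSeries.X : PowerSeries F) ^ n, η i]) ?_ φ 1 ?_ 0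
      Nat.zero_lt_one
    · intro j
      fin_cases j
      · change PowerSeries.constantCoeff ((PowerSeries.X : PowerSeries F) ^ n) = 0
        rw [map_pow, PowerSeries.constantCoeff_X, zero_pow hn0]
      · exact hη0 i
    · intro e he
      apply hφ.low
      have h1 : e = 0 := by
        rw [← Finsupp.degree_eq_zero_iff]; omega
      rw [h1]
      simp only [Finsupp.coe_zero, Pi.zero_apply]
      omega
  have hchain : ∀ i, PowerSeries.X * PowerSeries.derivative F (PC.pev n hn0 (η i) r) =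
      PowerSeries.C (n : F) * (PowerSeries.X ^ n * PC.pev n hn0 (η i) r') := by
    intro i
    have h1 := (TR.H57.chn 2 F F 0 (![(PowerSeries.X : PowerSeries F) ^ n, η i]) φ (by
      intro j
      fin_cases j
      · change PowerSeries.constantCoeff ((PowerSeries.X : PowerSeries F) ^ n) = 0
        rw [map_pow, PowerSeries.constantCoeff_X, zero_pow hn0]
      · exact hη0 i)).1
    rw [Fin.sum_univ_two] at h1
    have h2 : DU5.ev (![(PowerSeries.X : PowerSeries F) ^ n, η i]) φ = PC.ev n (η i) φ := rfl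
    have h3 : DU5.ev (![(PowerSeries.X : PowerSeries F) ^ n, η i])
        (MvPowerSeries.pderiv F 0 φ) = PC.ev n (η i) φx := rfl
    have h4 : DU5.ev (![(PowerSeries.X : PowerSeries F) ^ n, η i])
        (MvPowerSeries.pderiv F 1 φ) = PC.ev n (η i) φy := rfl
    rw [h2, h3, h4, hφy0, zero_mul, add_zero] at h1
    have h5 : (![(PowerSeries.X : PowerSeries F) ^ n, η i]) 0 = PowerSeries.X ^ n := rfl
    rw [h5, Derivation.leibniz_pow] at h1
    rw [hr, hr', h1]
    have h6 : PowerSeries.derivative F (PowerSeries.X : PowerSeries F) = 1 :=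
      PowerSeries.derivative_X
    rw [h6, smul_eq_mul, mul_one, nsmul_eq_mul]
    obtain ⟨n', hn'⟩ := Nat.exists_eq_succ_of_ne_zero hn0
    rw [hn', Nat.succ_eq_add_one, Nat.add_sub_cancel, map_natCast]
    ring
  have hord : ∀ i, (PC.pev n hn0 (η i) r).order =
      (n : ℕ∞) + (PC.pev n hn0 (η i) r').order := by
    intro i
    rw [← order_X_derivative p _ (hconst i) (hsmall i), hchain, PowerSeries.order_mul,
      PowerSeries.order_mul, PowerSeries.order_X_pow]
    have h1 : (PowerSeries.C (n : F) : PowerSeries F).order = 0 := by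
      refine PowerSeries.order_zero_of_unit ?_
      exact (isUnit_iff_ne_zero.2 hncast).map PowerSeries.C
    rw [h1, zero_add]
  have hw : ∀ i, PC.pev n hn0 (η i) r' ≠ 0 := by
    intro i h0
    have h1 := hord i
    rw [h0, PowerSeries.order_zero, add_top] at h1
    exact hal i (PowerSeries.order_eq_top.1 h1)
  have hform' := length_formula n hn0 P (d - 1) η hη r' hw
  have hsum : (n : ℕ∞) * Module.length F ((PowerSeries F)[X] ⧸
      (Ideal.span {P, r} : Ideal (PowerSeries F)[X])) =
      (n : ℕ∞) * ((Module.length F ((PowerSeries F)[X] ⧸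
      (Ideal.span {P, r'} : Ideal (PowerSeries F)[X]))) + (d - 1 : ℕ)) := by
    rw [hform, mul_add, hform']
    simp only [hord]
    rw [Finset.sum_add_distrib, Finset.sum_const, Finset.card_univ, Fintype.card_fin,
      nsmul_eq_mul, add_comm, mul_comm ((d - 1 : ℕ) : ℕ∞)]
  obtain ⟨a, ha⟩ := ENat.ne_top_iff_exists.1 hfin
  have hfin' : Module.length F ((PowerSeries F)[X] ⧸
      (Ideal.span {P, r'} : Ideal (PowerSeries F)[X])) ≠ ⊤ := by
    intro h
    rw [h, top_add, ENat.mul_top (by exact_mod_cast hn0), ← ha] at hsum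
    exact absurd hsum (by exact_mod_cast ENat.natCast_ne_top (n * a))
  obtain ⟨b, hb⟩ := ENat.ne_top_iff_exists.1 hfin'
  rw [← ha, ← hb] at hsum ⊢
  have h7 : n * a = n * (b + (d - 1)) := by exact_mod_cast hsum
  have h8 := Nat.eq_of_mul_eq_mul_left (Nat.pos_of_ne_zero hn0) h7
  rw [h8]
  push_cast
  exact le_rfl

end Pool.Agent.DU5
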