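import Pool.Agent.Lib.MP_524519_ag.DU5.PC.Iface

/-! # TE1: the length of `K⟦s⟧[y] / (P, g)` for a product `P` of linear factors -/

set_option autoImplicit false

namespace Pool.Agent.DU5.TE1

open Polynomial Pool.Agent.DU5.PC

variable {K : Type} [Field K]

/-- The length of `K⟦s⟧ / (s ^ e)`. -/
theorem length_pow (e : ℕ) :
    Module.length K (PowerSeries K ⧸ (Ideal.span {PowerSeries.X ^ e} : Ideal (PowerSeries K))) =
      e := by
  let φ : PowerSeries K →ₗ[K] (Fin e → K) := LinearMap.pi fun i => PowerSeries.coeff (i : ℕ)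
  have hφ : Function.Surjective φ := by
    intro v
    refine ⟨PowerSeries.mk fun m => if h : m < e then v ⟨m, h⟩ else 0, ?_⟩
    funext i
    simp only [φ, LinearMap.pi_apply]
    rw [PowerSeries.coeff_mk, dif_pos i.2]
  have hker : LinearMap.ker φ =
      (Ideal.span {PowerSeries.X ^ e} : Ideal (PowerSeries K)).restrictScalars K := by
    ext g
    rw [LinearMap.mem_ker, Submodule.restrictScalars_mem, Ideal.mem_span_singleton,
      PowerSeries.X_pow_dvd_iff]
    constructor
    · intro h m hm
      exact congrFun h ⟨m, hm⟩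
    · intro h
      funext i
      exact h i i.2
  rw [← (Submodule.Quotient.restrictScalarsEquiv K _).length_eq, ← hker,
    (LinearMap.quotKerEquivOfSurjective φ hφ).length_eq, Module.length_eq_finrank,
    Module.finrank_fin_fun]

/-- The length of `K⟦s⟧ / (b)`. -/
theorem length_span (b : PowerSeries K) (hb : b ≠ 0) :
    Module.length K (PowerSeries K ⧸ (Ideal.span {b} : Ideal (PowerSeries K))) = b.order := by
  have h1 : (Ideal.span {b} : Ideal (PowerSeries K)) =
      Ideal.span {PowerSeries.X ^ b.order.toNat} := by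
    refine Ideal.span_singleton_eq_span_singleton.2 ?_
    refine Associated.symm ⟨(PowerSeries.isUnit_divided_by_X_pow_order hb).unit, ?_⟩
    rw [IsUnit.unit_spec, PowerSeries.X_pow_order_mul_divXPowOrder]
  rw [h1, length_pow, PowerSeries.coe_toNat_order hb]

/-- The length of `K⟦s⟧[y] / (y - η, g)`. -/
theorem length_lin (η : PowerSeries K) (g : (PowerSeries K)[X]) (hg : g.eval η ≠ 0) :
    Module.length K ((PowerSeries K)[X] ⧸
      (Ideal.span {X - C η, g} : Ideal (PowerSeries K)[X])) = (g.eval η).order := by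
  let ψ : (PowerSeries K)[X] →ₗ[K]
      (PowerSeries K ⧸ (Ideal.span {g.eval η} : Ideal (PowerSeries K))) :=
    { toFun := fun h => Ideal.Quotient.mk _ (h.eval η)
      map_add' := by intro a b; simp
      map_smul' := by
        intro a b
        have h1 : (a • b).eval η = a • b.eval η := Polynomial.eval_smul _ _ _
        rw [h1]
        rfl }
  have hψs : Function.Surjective ψ := fun y => by
    obtain ⟨z, rfl⟩ := Ideal.Quotient.mk_surjective y
    exact ⟨C z, by change Ideal.Quotient.mk _ ((C z).eval η) = _; rw [eval_C]⟩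
  have hker : LinearMap.ker ψ =
      (Ideal.span {X - C η, g} : Ideal (PowerSeries K)[X]).restrictScalars K := by
    ext h
    rw [LinearMap.mem_ker, Submodule.restrictScalars_mem]
    change Ideal.Quotient.mk _ (h.eval η) = 0 ↔ _
    rw [Ideal.Quotient.eq_zero_iff_mem, Ideal.mem_span_singleton, Ideal.mem_span_pair]
    constructor
    · rintro ⟨c, hc⟩
      have h2 : X - C η ∣ h - C c * g := by
        rw [dvd_iff_isRoot, IsRoot.def, eval_sub, eval_mul, eval_C, hc]; ring
      obtain ⟨e, he⟩ := h2
      exact ⟨e, C c, by rw [mul_comm e, ← he]; ring⟩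
    · rintro ⟨a, b, rfl⟩
      refine ⟨b.eval η, ?_⟩
      rw [eval_add, eval_mul, eval_mul, eval_sub, eval_X, eval_C]; ring
  rw [← (Submodule.Quotient.restrictScalarsEquiv K _).length_eq, ← hker,
    (LinearMap.quotKerEquivOfSurjective ψ hψs).length_eq, length_span _ hg]

/-- One linear factor more. -/
theorem length_step (η : PowerSeries K) (P g : (PowerSeries K)[X]) (hg : g.eval η ≠ 0) :
    Module.length K ((PowerSeries K)[X] ⧸
      (Ideal.span {(X - C η) * P, g} : Ideal (PowerSeries K)[X])) =
    Module.length K ((PowerSeries K)[X] ⧸ (Ideal.span {P, g} : Ideal (PowerSeries K)[X])) +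
      (g.eval η).order := by
  set I0 : Ideal (PowerSeries K)[X] := Ideal.span {P, g} with hI0
  set I1 : Ideal (PowerSeries K)[X] := Ideal.span {(X - C η) * P, g} with hI1
  set I2 : Ideal (PowerSeries K)[X] := Ideal.span {X - C η, g} with hI2
  have h01 : I0 ≤ Submodule.comap (LinearMap.mulLeft (PowerSeries K)[X] (X - C η)) I1 := by
    intro a ha
    rw [hI0, Ideal.mem_span_pair] at ha
    obtain ⟨u, v, rfl⟩ := ha
    rw [Submodule.mem_comap, LinearMap.mulLeft_apply, hI1, Ideal.mem_span_pair]
    exact ⟨u, (X - C η) * v, by ring⟩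
  have h12 : I1 ≤ I2 := by
    intro a ha
    rw [hI1, Ideal.mem_span_pair] at ha
    obtain ⟨u, v, rfl⟩ := ha
    rw [hI2, Ideal.mem_span_pair]
    exact ⟨u * P, v, by ring⟩
  let f : ((PowerSeries K)[X] ⧸ I0) →ₗ[K] ((PowerSeries K)[X] ⧸ I1) :=
    (Submodule.mapQ I0 I1 (LinearMap.mulLeft (PowerSeries K)[X] (X - C η)) h01).restrictScalars K
  let q : ((PowerSeries K)[X] ⧸ I1) →ₗ[K] ((PowerSeries K)[X] ⧸ I2) :=
    (Submodule.factor h12).restrictScalars K
  have hfmk : ∀ a : (PowerSeries K)[X], f (Submodule.Quotient.mk a) =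
      Submodule.Quotient.mk ((X - C η) * a) := fun a => rfl
  have hqmk : ∀ a : (PowerSeries K)[X], q (Submodule.Quotient.mk a) =
      Submodule.Quotient.mk a := fun a => rfl
  have hX : (X - C η : (PowerSeries K)[X]) ≠ 0 := X_sub_C_ne_zero η
  have hf : Function.Injective f := by
    rw [injective_iff_map_eq_zero]
    intro a ha
    obtain ⟨a, rfl⟩ := Submodule.Quotient.mk_surjective _ a
    rw [hfmk, Submodule.Quotient.mk_eq_zero, hI1, Ideal.mem_span_pair] at ha
    rw [Submodule.Quotient.mk_eq_zero, hI0, Ideal.mem_span_pair]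
    obtain ⟨u, v, huv⟩ := ha
    have h2 : v.eval η = 0 := by
      have h3 := congrArg (eval η) huv
      rw [eval_add, eval_mul, eval_mul, eval_mul, eval_mul, eval_sub, eval_X, eval_C, sub_self,
        zero_mul, zero_mul, mul_zero, zero_add] at h3
      exact (mul_eq_zero.1 h3).resolve_right hg
    obtain ⟨w, hw⟩ := dvd_iff_isRoot.2 h2
    refine ⟨u, w, mul_left_cancel₀ hX ?_⟩
    rw [← huv, hw]; ring
  have hq : Function.Surjective q := by
    intro a
    obtain ⟨a, rfl⟩ := Submodule.Quotient.mk_surjective _ a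
    exact ⟨Submodule.Quotient.mk a, hqmk a⟩
  have hex : Function.Exact f q := by
    intro a
    obtain ⟨a, rfl⟩ := Submodule.Quotient.mk_surjective _ a
    rw [hqmk, Submodule.Quotient.mk_eq_zero]
    constructor
    · intro h
      rw [hI2, Ideal.mem_span_pair] at h
      obtain ⟨u, v, rfl⟩ := h
      refine ⟨Submodule.Quotient.mk u, ?_⟩
      rw [hfmk, Submodule.Quotient.eq, hI1, Ideal.mem_span_pair]
      exact ⟨0, -v, by ring⟩
    · rintro ⟨b, hb⟩
      obtain ⟨b, rfl⟩ := Submodule.Quotient.mk_surjective _ b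
      rw [hfmk, Submodule.Quotient.eq] at hb
      have h1 := h12 hb
      have h2 : (X - C η) * b ∈ I2 := by
        rw [hI2]
        exact Ideal.mul_mem_right _ _ (Ideal.subset_span (by simp))
      have h3 := I2.sub_mem h2 h1
      simpa using h3
  rw [Module.length_eq_add_of_exact f q hf hq hex, length_lin η g hg]

/-- The length of `K⟦s⟧[y] / (∏ (y - η i), g)`. -/
theorem length_split (d : ℕ) : ∀ (η : Fin d → PowerSeries K) (g : (PowerSeries K)[X]),
    (∀ i, g.eval (η i) ≠ 0) → Module.length K ((PowerSeries K)[X] ⧸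
      (Ideal.span {∏ i, (X - C (η i)), g} : Ideal (PowerSeries K)[X])) =
      ∑ i, (g.eval (η i)).order := by
  induction d with
  | zero =>
    intro η g _
    have h1 : (Ideal.span {∏ i, (X - C (η i)), g} : Ideal (PowerSeries K)[X]) = ⊤ := by
      refine Ideal.eq_top_of_isUnit_mem _ (Ideal.subset_span (Set.mem_insert _ _)) ?_
      simp
    have : Subsingleton ((PowerSeries K)[X] ⧸
      (Ideal.span {∏ i, (X - C (η i)), g} : Ideal (PowerSeries K)[X])) :=
      Ideal.Quotient.subsingleton_iff.2 h1
    rw [Module.length_eq_zero]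
    simp
  | succ d ih =>
    intro η g hg
    rw [Fin.prod_univ_succ, length_step (η 0) _ g (hg 0), ih (fun i => η i.succ) g
      (fun i => hg i.succ), Fin.sum_univ_succ, add_comm]

end Pool.Agent.DU5.TE1
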